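import Pool.Agent.MP_ca0a54_nt.H3.AR2a

/-! The row AR2: mean values of the coefficients. -/

open Complex Filter Topology Finset

namespace Pool.Agent.MP_ca0a54_nt.H3

open Pool.Agent.MP_ca0a54_nt.H24

theorem cv_apply (u v : ℕ → ℂ) (n : ℕ) :
    cv u v n = ∑ p ∈ n.divisorsAntidiagonal, u p.1 * v p.2 := by
  unfold cv; rw [LSeries.convolution_def]

theorem cv_comm (u v : ℕ → ℂ) (n : ℕ) : cv u v n = cv v u n := by
  rw [cv_apply, cv_apply]
  conv_lhs => rw [← Nat.map_swap_divisorsAntidiagonal, Finset.sum_map]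
  exact Finset.sum_congr rfl fun p _ => by simp [mul_comm]

theorem norm_cv_le (u v : ℕ → ℂ) (n : ℕ) :
    ‖cv u v n‖ ≤ ∑ p ∈ n.divisorsAntidiagonal, ‖u p.1‖ * ‖v p.2‖ := by
  rw [cv_apply]
  exact (norm_sum_le _ _).trans (le_of_eq (Finset.sum_congr rfl fun p _ => norm_mul _ _))

theorem norm_cv_sq (u v : ℕ → ℂ) (n : ℕ) :
    ‖cv u v n‖ ^ 2 ≤ (∑ p ∈ n.divisorsAntidiagonal, ‖u p.1‖) *
      ∑ p ∈ n.divisorsAntidiagonal, ‖u p.1‖ * ‖v p.2‖ ^ 2 := by
  refine (pow_le_pow_left₀ (norm_nonneg _) (norm_cv_le u v n) 2).trans ?_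
  refine Finset.sum_sq_le_sum_mul_sum_of_sq_le_mul _ (fun p _ => norm_nonneg _)
    (fun p _ => by positivity) fun p _ => le_of_eq (by ring)

theorem cv_sq_sum (u v : ℕ → ℂ) (S : Finset ℕ) (M : ℕ) (hS : S ⊆ Icc 1 M) (E W : ℝ) (hE0 : 0 ≤ E)
    (hE : ∀ n ∈ S, ∑ p ∈ n.divisorsAntidiagonal, ‖u p.1‖ ≤ E)
    (hW : ∀ k ∈ Icc 1 M, ∑ j ∈ (Icc 1 M).filter (fun j => k * j ∈ S), ‖v j‖ ^ 2 / j ≤ W) :
    ∑ n ∈ S, ‖cv u v n‖ ^ 2 / n ≤ E * ((∑ k ∈ Icc 1 M, ‖u k‖ / k) * W) := by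
  refine le_trans ?_ (mul_le_mul_of_nonneg_left (conv_le (fun k => ‖u k‖ / k)
    (fun j => ‖v j‖ ^ 2 / j) S M hS W (fun k => by positivity) hW) hE0)
  rw [Finset.mul_sum]
  refine Finset.sum_le_sum fun n hn => ?_
  have e : ∑ p ∈ n.divisorsAntidiagonal, ‖u p.1‖ / p.1 * (‖v p.2‖ ^ 2 / p.2) =
      (∑ p ∈ n.divisorsAntidiagonal, ‖u p.1‖ * ‖v p.2‖ ^ 2) / n := by
    rw [Finset.sum_div]
    refine Finset.sum_congr rfl fun p hp => ?_
    rw [← (Nat.mem_divisorsAntidiagonal.1 hp).1, div_mul_div_comm, Nat.cast_mul]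
  rw [e, ← mul_div_assoc]
  refine div_le_div_of_nonneg_right ((norm_cv_sq u v n).trans ?_) (Nat.cast_nonneg _)
  exact mul_le_mul_of_nonneg_right (hE n hn) (Finset.sum_nonneg fun p _ => by positivity)

theorem cv_sum (u v : ℕ → ℂ) (s : ℝ) (S : Finset ℕ) (M : ℕ) (hS : S ⊆ Icc 1 M) (W : ℝ)
    (hW : ∀ k ∈ Icc 1 M, ∑ j ∈ (Icc 1 M).filter (fun j => k * j ∈ S), ‖v j‖ * ee s j ≤ W) :
    ∑ n ∈ S, ‖cv u v n‖ * ee s n ≤ (∑ k ∈ Icc 1 M, ‖u k‖ * ee s k) * W := by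
  refine le_trans ?_ (conv_le (fun k => ‖u k‖ * ee s k)
    (fun j => ‖v j‖ * ee s j) S M hS W (fun k => mul_nonneg (norm_nonneg _) (ee_pos _ _).le) hW)
  refine Finset.sum_le_sum fun n _ => ?_
  refine (mul_le_mul_of_nonneg_right (norm_cv_le u v n) (ee_pos s n).le).trans (le_of_eq ?_)
  rw [Finset.sum_mul]
  refine Finset.sum_congr rfl fun p hp => ?_
  obtain ⟨h1, h2⟩ := Nat.mem_divisorsAntidiagonal.1 hp
  have h3 : p.1 * p.2 ≠ 0 := h1 ▸ h2
  rw [← h1, ee_mul s (left_ne_zero_of_mul h3) (right_ne_zero_of_mul h3)]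
  ring

theorem inv_le_ee {L c : ℝ} {N n : ℕ} (hL : 1 ≤ L) (hc : 0 ≤ c) (hN : Real.log N ≤ L)
    (hn : n ∈ Icc 1 N) : (1 : ℝ) / n ≤ Real.exp c * ee (1 + c / L) n := by
  obtain ⟨h1, h2⟩ := mem_Icc.1 hn
  have h0 : (0 : ℝ) < n := by exact_mod_cast h1
  have hl : Real.log n ≤ L := (Real.log_le_log h0 (by exact_mod_cast h2)).trans hN
  rw [ee_add, ee_one (by omega), mul_left_comm]
  refine le_mul_of_one_le_right (by positivity) ?_
  unfold ee
  rw [← Real.exp_add]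
  refine Real.one_le_exp ?_
  have : c / L * Real.log n ≤ c := by
    rw [div_mul_eq_mul_div, div_le_iff₀ (by linarith)]
    exact mul_le_mul_of_nonneg_left hl hc
  linarith

section
variable (h : Ar1Stmt)
include h

theorem divs {a : ℝ} (ha : 0 ≤ a) (n : ℕ) :
    ∑ p ∈ n.divisorsAntidiagonal, ‖rc 0 (I * a) p.1‖ ≤ Real.exp (a * Real.log n) := by
  rw [Nat.sum_divisorsAntidiagonal (fun i _ => ‖rc 0 (I * a) i‖)]
  exact h.2.2.2.2.2.1 a n ha

theorem divs' {L ab : ℝ} {M n : ℕ} (hL : 1 ≤ L) (h0 : 0 ≤ ab) (h1 : ab ≤ Real.pi)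
    (hM : Real.log M ≤ L) (hn : n ≤ M) :
    ∑ p ∈ n.divisorsAntidiagonal, ‖rc 0 (I * (ab / L : ℝ)) p.1‖ ≤ Real.exp Real.pi := by
  refine (divs h (div_nonneg h0 (by linarith)) n).trans (Real.exp_le_exp.2 ?_)
  have hl : Real.log n ≤ L := by
    rcases Nat.eq_zero_or_pos n with rfl | hn0
    · simp; linarith
    · exact (Real.log_le_log (by exact_mod_cast hn0) (by exact_mod_cast hn)).trans hM
  have : ab / L * Real.log n ≤ ab := by
    rw [div_mul_eq_mul_div, div_le_iff₀ (by linarith)]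
    exact mul_le_mul_of_nonneg_left hl h0
  linarith

theorem bsum {a y : ℝ} (ha : 0 ≤ a) (hy : a < y) (K : ℕ) :
    ∑ k ∈ Icc 1 K, ‖rc 0 (I * a) k‖ * ee (1 + y) k ≤ y * (1 + 1 / (y - a)) := by
  have nn : ∀ k, 0 ≤ ‖rc 0 (I * a) k‖ * ee (1 + y) k :=
    fun k => mul_nonneg (norm_nonneg _) (ee_pos _ _).le
  refine zlim (by linarith) (Finset.sum_nonneg fun k _ => nn k) fun M => ?_
  refine (le_conv _ _ K M nn fun k => (ee_pos _ _).le).trans ?_
  refine le_trans ?_ (zup (α := y - a) (by linarith) (K * M))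
  refine Finset.sum_le_sum fun n _ => ?_
  have e : ∑ p ∈ n.divisorsAntidiagonal, ‖rc 0 (I * a) p.1‖ * ee (1 + y) p.1 * ee (1 + y) p.2 =
      (∑ p ∈ n.divisorsAntidiagonal, ‖rc 0 (I * a) p.1‖) * ee (1 + y) n := by
    rw [Finset.sum_mul]
    refine Finset.sum_congr rfl fun p hp => ?_
    obtain ⟨h1, h2⟩ := Nat.mem_divisorsAntidiagonal.1 hp
    have h3 : p.1 * p.2 ≠ 0 := h1 ▸ h2
    rw [← h1, ee_mul _ (left_ne_zero_of_mul h3) (right_ne_zero_of_mul h3)]
    ring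
  rw [e]
  refine (mul_le_mul_of_nonneg_right (divs h ha n) (ee_pos _ _).le).trans (le_of_eq ?_)
  unfold ee
  rw [← Real.exp_add]; congr 1; ring

theorem phi_nonneg {y : ℝ} (hy : 0 ≤ y) (n : ℕ) : 0 ≤ (rc 0 y n).re :=
  (norm_nonneg _).trans (h.2.2.2.2.1 y n hy).1

theorem phisum {α y : ℝ} (hα : 0 < α) (hy : 0 ≤ y) (N : ℕ) :
    ∑ n ∈ Icc 1 N, (rc 0 y n).re * ee (1 + α) n ≤ (α + y) * (1 + 1 / α) := by
  obtain ⟨A, hA, hA1, hA2⟩ := zeta_real hα
  obtain ⟨B, hB, -, hB2⟩ := zeta_real (α := α + y) (by linarith)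
  obtain ⟨hs, hL⟩ := h.2.2.1 0 y ((1 + α : ℝ) : ℂ) (by simp [hα]) (by simp; linarith)
  have e1 : ((1 + α : ℝ) : ℂ) + (y : ℂ) = ((1 + (α + y) : ℝ) : ℂ) := by push_cast; ring
  rw [add_zero, e1, hA, hB, ← Complex.ofReal_div] at hL
  have hs' := hs.LSeriesHasSum
  rw [hL] at hs'
  unfold LSeriesHasSum at hs'
  have hre := Complex.hasSum_re hs'
  simp only [term_real, Complex.mul_re, Complex.ofReal_re, Complex.ofReal_im, mul_zero,
    sub_zero] at hre
  have nn : ∀ n : ℕ, 0 ≤ (rc 0 y n).re * (if n = 0 then 0 else ee (1 + α) n) := by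
    intro n; split_ifs
    · simp
    · exact mul_nonneg (phi_nonneg h hy n) (ee_pos _ _).le
  have h1 := sum_le_hasSum (range (N + 1)) (fun n _ => nn n) hre
  rw [sum_ite (fun n => (rc 0 y n).re)] at h1
  have hB0 : 0 < B := by
    have := hB2 1
    simp [ee_at_one] at this
    linarith
  have hA0 : 0 < A := by
    have := hA2 1
    simp [ee_at_one] at this
    linarith
  refine h1.trans (zlim (by linarith) (by positivity) fun M => ?_)
  refine (mul_le_mul_of_nonneg_left (hB2 M) (by positivity)).trans ?_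
  rw [div_mul_cancel₀ _ hB0.ne']
  exact hA1

theorem phisum' {L Y : ℝ} (hL : 1 ≤ L) (hY : 1 ≤ Y) (N : ℕ) :
    ∑ n ∈ Icc 1 N, (rc 0 (Y / L : ℝ) n).re * ee (1 + 1 / L) n ≤ 4 * Y := by
  refine (phisum h (α := 1 / L) (by positivity) (by positivity) N).trans ?_
  have : (1 / L + Y / L) * (1 + 1 / (1 / L)) = (1 + Y) * ((1 + L) / L) := by
    field_simp
  rw [this]
  have h2 : (1 + L) / L ≤ 2 := by rw [div_le_iff₀ (by linarith)]; linarith
  have h3 : 0 ≤ (1 + L) / L := by positivity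
  nlinarith

theorem part1 {L Y : ℝ} {N : ℕ} (hL : 1 ≤ L) (hY : 1 ≤ Y) (hN : Real.log N ≤ L) :
    ∑ n ∈ Icc 1 N, (rc 0 (Y / L : ℝ) n).re / n ≤ Real.exp 1 * (4 * Y) := by
  refine le_trans ?_ (mul_le_mul_of_nonneg_left (phisum' h hL hY N) (Real.exp_pos 1).le)
  rw [Finset.mul_sum]
  refine Finset.sum_le_sum fun n hn => ?_
  have h1 := inv_le_ee hL zero_le_one hN hn
  have h2 := phi_nonneg h (y := Y / L) (by positivity) n
  rw [div_eq_mul_one_div, mul_left_comm]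
  exact mul_le_mul_of_nonneg_left h1 h2

theorem bsum' {L ab : ℝ} {M : ℕ} (hL : 1 ≤ L) (h0 : 0 ≤ ab) (h1 : ab ≤ Real.pi)
    (hM : Real.log M ≤ L) :
    ∑ k ∈ Icc 1 M, ‖rc 0 (I * (ab / L : ℝ)) k‖ / k ≤ Real.exp 7 * 10 := by
  have hpi := Real.pi_le_four
  have hL0 : 0 < L := by linarith
  have hb := bsum h (a := ab / L) (y := 7 / L) (by positivity)
    (div_lt_div_of_pos_right (by linarith) hL0) M
  have e : 7 / L * (1 + 1 / (7 / L - ab / L)) = 7 / L + 7 / (7 - ab) := by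
    have : (7 : ℝ) - ab ≠ 0 := by linarith
    field_simp
  have b1 : 7 / L ≤ 7 := by rw [div_le_iff₀ hL0]; linarith
  have b2 : 7 / (7 - ab) ≤ 3 := by rw [div_le_iff₀ (by linarith)]; linarith
  rw [e] at hb
  refine le_trans ?_ (mul_le_mul_of_nonneg_left (hb.trans (by linarith)) (Real.exp_pos 7).le)
  rw [Finset.mul_sum]
  refine Finset.sum_le_sum fun n hn => ?_
  have h1 := inv_le_ee hL (c := 7) (by norm_num) hM hn
  rw [div_eq_mul_one_div, mul_left_comm]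
  exact mul_le_mul_of_nonneg_left h1 (norm_nonneg _)

theorem gam_eq (y a : ℝ) (k : ℕ) : ‖rc y (y + I * a) k‖ = ‖rc 0 (I * a) k‖ * ee y k := by
  have := h.2.1 0 (I * a) y k
  rw [zero_add, add_comm] at this
  rw [this, norm_mul, np_real, Complex.norm_real, Real.norm_of_nonneg (ee_pos _ _).le]

theorem fact (y a : ℝ) (n : ℕ) :
    rc y (I * a) n = cv (rc y (y + I * a)) (fun m => rc y 0 m * np (I * a) m) n := by
  have e : (fun m => rc y 0 m * np (I * a) m) = rc (y + I * a) (I * a) := by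
    funext m
    have := h.2.1 y 0 (I * a) m
    rw [zero_add] at this
    exact this.symm
  rw [e, cv_comm, h.1]

theorem gsum {L Y ab : ℝ} (hY : 7 ≤ Y) (hL : Y ^ 2 ≤ L) (h0 : 0 ≤ ab) (h1 : ab ≤ Real.pi)
    (M : ℕ) :
    ∑ k ∈ Icc 1 M, ‖rc (Y / L : ℝ) ((Y / L : ℝ) + I * (ab / L : ℝ)) k‖ / k ≤ 1 + 11 / Y := by
  have hpi := Real.pi_le_four
  have hL0 : 0 < L := by nlinarith
  have hb := bsum h (a := ab / L) (y := Y / L) (by positivity)
    (div_lt_div_of_pos_right (by linarith) hL0) M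
  have e : Y / L * (1 + 1 / (Y / L - ab / L)) = 1 + (Y / L + ab / (Y - ab)) := by
    have : Y - ab ≠ 0 := by linarith
    field_simp
    ring
  have b1 : Y / L ≤ 1 / Y := by rw [div_le_div_iff₀ hL0 (by linarith)]; nlinarith
  have b2 : ab / (Y - ab) ≤ 10 / Y := by
    rw [div_le_div_iff₀ (by linarith) (by linarith)]; nlinarith
  have b3 : 11 / Y = 1 / Y + 10 / Y := by ring
  rw [e] at hb
  refine le_trans (le_of_eq ?_) (hb.trans (by linarith))
  refine Finset.sum_congr rfl fun k hk => ?_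
  rw [gam_eq h, ee_add, ee_one (by have := (mem_Icc.1 hk).1; omega)]
  ring

theorem part2 {L Y ab : ℝ} {N : ℕ} (hY : 7 ≤ Y) (hL : Y ^ 2 ≤ L) (h0 : 0 ≤ ab)
    (h1 : ab ≤ Real.pi) (hN : Real.log N ≤ L) :
    ∑ n ∈ Icc 1 N, ‖rc (Y / L : ℝ) (I * (ab / L : ℝ)) n -
      rc (Y / L : ℝ) 0 n * np (I * (ab / L : ℝ)) n‖ ^ 2 / n ≤
      Real.exp Real.pi * (44 * Real.exp 1) := by
  have hL1 : 1 ≤ L := by nlinarith
  have hy : 0 ≤ Y / L := by positivity
  set g := rc (Y / L : ℝ) ((Y / L : ℝ) + I * (ab / L : ℝ)) with hg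
  set v : ℕ → ℂ := fun m => rc (Y / L : ℝ) 0 m * np (I * (ab / L : ℝ)) m with hv
  have g1 : g 1 = 1 := (h.2.2.2.1 _ _).2.1
  have e : ∀ n ∈ Icc 1 N, rc (Y / L : ℝ) (I * (ab / L : ℝ)) n - v n =
      cv (fun k => if k = 1 then 0 else g k) v n := by
    intro n hn
    have hn1 := (mem_Icc.1 hn).1
    rw [fact h, ← hg, ← hv]
    clear_value g v
    rw [cv_apply, cv_apply, sub_eq_iff_eq_add, ← sub_eq_iff_eq_add', ← Finset.sum_sub_distrib,
      Finset.sum_eq_single (1, n)]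
    · simp [g1]
    · rintro ⟨i, j⟩ hp hne
      have hi : i ≠ 1 := by
        rintro rfl
        have := (Nat.mem_divisorsAntidiagonal.1 hp).1
        simp at this
        exact hne (by rw [this])
      simp [hi]
    · intro hp
      exact absurd (Nat.mem_divisorsAntidiagonal.2 ⟨by simp, by omega⟩) hp
  rw [Finset.sum_congr rfl fun n hn => by rw [e n hn]]
  have hle : ∀ k, ‖(if k = 1 then 0 else g k)‖ ≤ ‖rc 0 (I * (ab / L : ℝ)) k‖ := by
    intro k
    split_ifs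
    · simp
    · rw [hg, gam_eq h]
      exact mul_le_of_le_one_right (norm_nonneg _) (ee_le_one hy k)
  refine (cv_sq_sum _ v _ N (Finset.Subset.refl _) (Real.exp Real.pi) (Real.exp 1 * (4 * Y))
    (Real.exp_pos _).le (fun n hn => ?_) fun k _ => ?_).trans ?_
  · exact (Finset.sum_le_sum fun p _ => hle p.1).trans (divs' h hL1 h0 h1 hN (mem_Icc.1 hn).2)
  · refine le_trans ?_ (part1 h hL1 (by linarith) hN)
    refine le_trans (Finset.sum_le_sum_of_subset_of_nonneg (Finset.filter_subset _ _)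
      fun _ _ _ => by positivity) (Finset.sum_le_sum fun j _ => ?_)
    refine div_le_div_of_nonneg_right ?_ (Nat.cast_nonneg _)
    obtain ⟨a1, a2, -⟩ := h.2.2.2.2.1 (Y / L) j hy
    simp only [hv, norm_mul, norm_np_I, mul_one]
    nlinarith [norm_nonneg (rc (Y / L : ℝ) 0 j)]
  · refine mul_le_mul_of_nonneg_left ?_ (Real.exp_pos _).le
    have hs : ∑ k ∈ Icc 1 N, ‖(if k = 1 then 0 else g k)‖ / k ≤ 11 / Y := by
      rcases Nat.eq_zero_or_pos N with rfl | hN0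
      · simp; positivity
      · have m1 : 1 ∈ Icc 1 N := mem_Icc.2 ⟨le_rfl, hN0⟩
        have := gsum h hY hL h0 h1 N
        rw [← hg, ← Finset.add_sum_erase _ _ m1, g1] at this
        rw [← Finset.add_sum_erase _ _ m1, Finset.sum_congr rfl
          (g := fun k => ‖g k‖ / k) fun k hk => by rw [if_neg (Finset.ne_of_mem_erase hk)]]
        simp at this ⊢
        linarith
    refine (mul_le_mul_of_nonneg_right hs (by positivity)).trans (le_of_eq ?_)
    field_simp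
    norm_num

theorem part3 {L ab : ℝ} {N M : ℕ} {r : ℕ → ℂ} (hL : 1 ≤ L) (h0 : 0 ≤ ab) (h1 : ab ≤ Real.pi)
    (hM : Real.log M ≤ L) (hr : ∀ n, ‖r n‖ ≤ 1) :
    (∀ n ≤ M, ‖cv (rc 0 (I * (ab / L : ℝ))) (cut r N) n‖ ≤ Real.exp Real.pi) ∧
    ∀ W τ : ℝ, (∀ x : ℝ, 0 < x → ∑ n ∈ win N x τ, ‖r n‖ ^ 2 / n ≤ W) → ∀ x : ℝ, 0 < x →
      ∑ n ∈ win M x τ, ‖cv (rc 0 (I * (ab / L : ℝ))) (cut r N) n‖ ^ 2 / n ≤
        Real.exp Real.pi * (Real.exp 7 * 10 * W) := by
  refine ⟨fun n hn => ?_, fun W τ hW x hx => ?_⟩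
  · refine (norm_cv_le _ _ n).trans (le_trans ?_ (divs' h hL h0 h1 hM hn))
    refine Finset.sum_le_sum fun p _ => mul_le_of_le_one_right (norm_nonneg _) ?_
    unfold cut
    split_ifs
    · exact hr _
    · simp
  · have hW0 : 0 ≤ W := (Finset.sum_nonneg fun _ _ => by positivity).trans (hW 1 one_pos)
    refine (cv_sq_sum _ _ _ M (win_sub M x τ) (Real.exp Real.pi) W
      (Real.exp_pos _).le (fun n hn => ?_) fun k hk => ?_).trans ?_
    · exact divs' h hL h0 h1 hM (mem_Icc.1 (win_sub M x τ hn)).2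
    · have hk0 : (0 : ℝ) < k := by exact_mod_cast (mem_Icc.1 hk).1
      refine le_trans ?_ (hW (x / k) (by positivity))
      rw [← Finset.sum_filter_of_ne (p := fun j => j ≤ N) (fun j _ hj => by
        by_contra hc
        simp [cut, hc] at hj)]
      rw [Finset.sum_congr rfl (g := fun j => ‖r j‖ ^ 2 / j) fun j hj => by
        simp [cut, (mem_filter.1 hj).2]]
      refine Finset.sum_le_sum_of_subset_of_nonneg (fun j hj => ?_) fun _ _ _ => by positivity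
      simp only [mem_filter, mem_Icc] at hj
      exact mem_win hk hj.1.1.1 hj.2 hj.1.2
    · refine mul_le_mul_of_nonneg_left ?_ (Real.exp_pos _).le
      exact mul_le_mul_of_nonneg_right (bsum' h hL h0 h1 hM) hW0

theorem part4 {L Y ab : ℝ} (hY : 7 ≤ Y) (hL : Y ^ 2 ≤ L) (h0 : 0 ≤ ab) (h1 : ab ≤ Real.pi) :
    (∀ M : ℕ, ∑ n ∈ Icc 1 M, ‖rc (Y / L : ℝ) (I * (ab / L : ℝ)) n‖ * ee (1 + 1 / L) n ≤ 12 * Y) ∧
    ∀ (M : ℕ) (W τ : ℝ),
      (∀ x : ℝ, 0 < x → ∑ n ∈ win M x τ, (rc 0 (Y / L : ℝ) n).re / n ≤ W) → ∀ x : ℝ, 0 < x →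
      ∑ n ∈ win M x τ, ‖rc (Y / L : ℝ) (I * (ab / L : ℝ)) n‖ / n ≤ 3 * W := by
  have hL1 : 1 ≤ L := by nlinarith
  have hy : 0 ≤ Y / L := by positivity
  have b3 : 1 + 11 / Y ≤ 3 := by
    have : 11 / Y ≤ 2 := by rw [div_le_iff₀ (by linarith)]; linarith
    linarith
  have hv : ∀ j, ‖rc (Y / L : ℝ) 0 j * np (I * (ab / L : ℝ)) j‖ ≤ (rc 0 (Y / L : ℝ) j).re := by
    intro j
    rw [norm_mul, norm_np_I, mul_one]
    exact (h.2.2.2.2.1 (Y / L) j hy).1
  refine ⟨fun M => ?_, fun M W τ hW x hx => ?_⟩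
  · simp only [fact h]
    refine (cv_sum _ _ _ _ M (Finset.Subset.refl _) (4 * Y) fun k _ => ?_).trans ?_
    · refine le_trans ?_ (phisum' h hL1 (by linarith) M)
      exact le_trans (Finset.sum_le_sum_of_subset_of_nonneg (Finset.filter_subset _ _)
        fun _ _ _ => mul_nonneg (norm_nonneg _) (ee_pos _ _).le)
        (Finset.sum_le_sum fun j _ => mul_le_mul_of_nonneg_right (hv j) (ee_pos _ _).le)
    · have : ∑ k ∈ Icc 1 M, ‖rc (Y / L : ℝ) ((Y / L : ℝ) + I * (ab / L : ℝ)) k‖ *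
          ee (1 + 1 / L) k ≤ 3 := by
        refine le_trans (Finset.sum_le_sum fun k hk => ?_) ((gsum h hY hL h0 h1 M).trans b3)
        rw [ee_add, ee_one (by have := (mem_Icc.1 hk).1; omega), ← mul_assoc, mul_one_div]
        exact mul_le_of_le_one_right (by positivity) (ee_le_one (by positivity) k)
      nlinarith
  · have hW0 : 0 ≤ W := (Finset.sum_nonneg fun n _ =>
      div_nonneg (phi_nonneg h hy n) (Nat.cast_nonneg _)).trans (hW 1 one_pos)
    have cg : ∀ (S : Finset ℕ) (f : ℕ → ℝ), S ⊆ Icc 1 M →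
        ∑ n ∈ S, f n * ee 1 n = ∑ n ∈ S, f n / n := fun S f hS =>
      Finset.sum_congr rfl fun n hn => by
        rw [ee_one (by have := (mem_Icc.1 (hS hn)).1; omega), mul_one_div]
    rw [← cg _ _ (win_sub M x τ)]
    simp only [fact h]
    refine (cv_sum _ _ _ _ M (win_sub M x τ) W fun k hk => ?_).trans ?_
    · have hk0 : (0 : ℝ) < k := by exact_mod_cast (mem_Icc.1 hk).1
      refine le_trans ?_ (hW (x / k) (by positivity))
      rw [cg _ _ (Finset.filter_subset _ _)]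
      refine le_trans (Finset.sum_le_sum_of_subset_of_nonneg (t := win M (x / k) τ)
        (fun j hj => ?_) fun _ _ _ => by positivity)
        (Finset.sum_le_sum fun j _ => div_le_div_of_nonneg_right (hv j) (Nat.cast_nonneg _))
      simp only [mem_filter, mem_Icc] at hj
      exact mem_win hk hj.1.1 hj.1.2 hj.2
    · rw [cg _ _ (Finset.Subset.refl _)]
      exact mul_le_mul_of_nonneg_right ((gsum h hY hL h0 h1 M).trans b3) hW0

end

theorem ar2 : Ar1Stmt → Ar2Stmt := by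
  intro h
  have p1 : 1 ≤ Real.exp Real.pi := Real.one_le_exp Real.pi_pos.le
  have p2 : 1 ≤ Real.exp 7 := Real.one_le_exp (by norm_num)
  have p3 : Real.exp 1 ≤ Real.exp 7 := Real.exp_le_exp.2 (by norm_num)
  have p4 : 0 < Real.exp 1 := Real.exp_pos 1
  have p5 : Real.exp 7 ≤ Real.exp Real.pi * Real.exp 7 := le_mul_of_one_le_left (by linarith) p1
  have p6 : Real.exp Real.pi ≤ Real.exp Real.pi * Real.exp 7 :=
    le_mul_of_one_le_right (by linarith) p2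
  refine ⟨44 * (Real.exp Real.pi * Real.exp 7), by linarith, ?_, ?_, ?_, ?_⟩
  · intro L Y N hL hY hN
    refine (part1 h hL hY hN).trans ?_
    nlinarith
  · intro L Y ab N hY hL h0 h1 hN
    refine (part2 h hY hL h0 h1 hN).trans ?_
    nlinarith
  · intro L ab N M r hL h0 h1 hM hr
    obtain ⟨a1, a2⟩ := part3 h (N := N) hL h0 h1 hM hr
    refine ⟨fun n hn => (a1 n hn).trans (by linarith), fun W τ hW x hx => ?_⟩
    have hW0 : 0 ≤ W := (Finset.sum_nonneg fun _ _ => by positivity).trans (hW 1 one_pos)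
    refine (a2 W τ hW x hx).trans ?_
    nlinarith
  · intro L Y ab hY hL h0 h1
    obtain ⟨a1, a2⟩ := part4 h hY hL h0 h1
    have hL0 : 0 < L := by nlinarith
    have nn : ∀ n : ℕ, 0 ≤ ‖rc (Y / L : ℝ) (I * (ab / L : ℝ)) n‖ *
        Real.exp (-(1 + 1 / L) * Real.log n) := fun n => by positivity
    have hb : ∀ M : ℕ, ∑ n ∈ range M, ‖rc (Y / L : ℝ) (I * (ab / L : ℝ)) n‖ *
        Real.exp (-(1 + 1 / L) * Real.log n) ≤ 12 * Y := by
      intro M
      refine le_trans ?_ (a1 M)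
      rw [← Finset.sum_filter_of_ne (p := fun n => n ≠ 0) (fun n _ hn => by
        rintro rfl
        rw [(h.2.2.2.1 _ _).1] at hn
        simp at hn)]
      refine Finset.sum_le_sum_of_subset_of_nonneg (fun n hn => ?_) fun n _ _ => nn n
      simp only [mem_filter, mem_range, mem_Icc] at hn ⊢
      omega
    refine ⟨summable_of_sum_range_le nn hb, (Real.tsum_le_of_sum_range_le nn hb).trans ?_,
      fun M W τ hW x hx => ?_⟩
    · nlinarith
    · have hW0 : 0 ≤ W := (Finset.sum_nonneg fun n _ =>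
        div_nonneg (phi_nonneg h (by positivity) n) (Nat.cast_nonneg _)).trans (hW 1 one_pos)
      refine (a2 M W τ hW x hx).trans ?_
      nlinarith

end Pool.Agent.MP_ca0a54_nt.H3
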