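import Pool.Agent.MP_ca0a54_nt.H29.Spec
import Pool.Agent.MP_ca0a54_nt.L0.Factor
import Pool.Agent.MP_ca0a54_nt.L0.Lower

/-!
Factorization of `zf` with multiplicities near `3 T / 2`, with a count of the zeros.
-/

open Complex Filter Topology Metric

namespace Pool.Agent.MP_ca0a54_nt.H3

open Pool.Agent.MP_ca0a54_nt.L0 Pool.Agent.MP_ca0a54_nt.H24 Pool.Agent.MP_ca0a54_nt.H29

namespace PZM

/-- `∏ (w - u) ^ m(u)`. -/
noncomputable def pm (U : Finset ℝ) (m : ℝ → ℕ) (w : ℂ) : ℂ := ∏ u ∈ U, (w - (u : ℂ)) ^ m u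

theorem diff_iter (Ω : Set ℂ) (hΩ : IsOpen Ω) (a : ℂ) (ha : a ∈ Ω) (n : ℕ) :
    ∀ g : ℂ → ℂ, DifferentiableOn ℂ g Ω →
      DifferentiableOn ℂ ((Function.swap dslope a)^[n] g) Ω := by
  induction n with
  | zero => exact fun g hg => hg
  | succ n ih =>
    intro g hg
    rw [Function.iterate_succ_apply]
    exact ih _ ((differentiableOn_dslope (hΩ.mem_nhds ha)).2 hg)

theorem div_one (Ω : Set ℂ) (hΩ : IsOpen Ω) (hc : IsPreconnected Ω) (g : ℂ → ℂ)
    (hg : DifferentiableOn ℂ g Ω) (w₀ : ℂ) (hw₀ : w₀ ∈ Ω) (h₀ : g w₀ ≠ 0) (a : ℂ) (ha : a ∈ Ω) :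
    ∃ (n : ℕ) (g₁ : ℂ → ℂ), DifferentiableOn ℂ g₁ Ω ∧ (∀ w, g w = (w - a) ^ n * g₁ w) ∧
      g₁ a ≠ 0 := by
  have han := hg.analyticOnNhd hΩ
  obtain ⟨p, hp⟩ := han a ha
  have hp0 : p ≠ 0 := fun h =>
    h₀ (han.eqOn_zero_of_preconnected_of_eventuallyEq_zero hc ha (hp.locally_zero_iff.2 h) hw₀)
  exact ⟨p.order, _, diff_iter Ω hΩ a ha _ g hg, fun w => hp.eq_pow_order_mul_iterate_dslope w,
    hp.iterate_dslope_fslope_ne_zero hp0⟩

theorem exists_quot (Ω : Set ℂ) (hΩ : IsOpen Ω) (hc : IsPreconnected Ω) (f : ℂ → ℂ)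
    (hf : DifferentiableOn ℂ f Ω) (w₀ : ℂ) (hw₀ : w₀ ∈ Ω) (h₀ : f w₀ ≠ 0) (V : Finset ℝ)
    (hV : ∀ u ∈ V, (u : ℂ) ∈ Ω) :
    ∃ (m : ℝ → ℕ) (g : ℂ → ℂ), DifferentiableOn ℂ g Ω ∧ (∀ w, f w = pm V m w * g w) ∧
      ∀ u ∈ V, g u ≠ 0 := by
  classical
  induction V using Finset.induction_on with
  | empty => exact ⟨0, f, hf, fun w => by simp [pm], by simp⟩
  | insert a V ha ih =>
    obtain ⟨m, g, hg, hfg, hne⟩ := ih fun u hu => hV u (Finset.mem_insert_of_mem hu)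
    have hg₀ : g w₀ ≠ 0 := fun h => h₀ (by rw [hfg, h, mul_zero])
    obtain ⟨n, g₁, hg₁, e, h₁⟩ :=
      div_one Ω hΩ hc g hg w₀ hw₀ hg₀ a (hV a (Finset.mem_insert_self a V))
    refine ⟨Function.update m a n, g₁, hg₁, fun w => ?_, fun u hu => ?_⟩
    · have : ∏ u ∈ V, (w - (u : ℂ)) ^ Function.update m a n u = pm V m w :=
        Finset.prod_congr rfl fun u hu => by
          rw [Function.update_of_ne (ne_of_mem_of_not_mem hu ha)]
      rw [hfg, e, pm, pm, Finset.prod_insert ha, Function.update_self, this, pm]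
      ring
    · rcases Finset.mem_insert.1 hu with rfl | hu
      · exact h₁
      · exact fun h => hne u hu (by rw [e, h, mul_zero])

theorem pm_diff (U : Finset ℝ) (m : ℝ → ℕ) : Differentiable ℂ (pm U m) := by
  unfold pm
  fun_prop

theorem pos_of (U : Finset ℝ) (m : ℝ → ℕ) (u : ℝ) (h : pm U m u = 0) : 1 ≤ m u := by
  obtain ⟨v, -, hv⟩ := Finset.prod_eq_zero_iff.1 h
  have h1 := (pow_eq_zero_iff'.1 hv)
  have h2 : u = v := by exact_mod_cast sub_eq_zero.1 h1.1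
  rw [h2]
  exact Nat.one_le_iff_ne_zero.2 h1.2

theorem deriv_zero (U : Finset ℝ) (m : ℝ → ℕ) (f g : ℂ → ℂ) (hfg : ∀ w, f w = pm U m w * g w)
    (u : ℝ) (hu : u ∈ U) (hg : DifferentiableAt ℂ g u) (h2 : 2 ≤ m u) : deriv f u = 0 := by
  classical
  obtain ⟨k, hk⟩ := Nat.exists_eq_add_of_le h2
  have hf : f = fun w => (w - (u : ℂ)) * ((w - (u : ℂ)) *
      ((w - (u : ℂ)) ^ k * (pm (U.erase u) m w * g w))) := by
    funext w
    rw [hfg, pm, ← Finset.mul_prod_erase U _ hu, hk, pm]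
    ring
  have hd := pm_diff (U.erase u) m u
  rw [hf, deriv_fun_mul (by fun_prop) (by fun_prop)]
  simp

theorem le_norm_pm (U : Finset ℝ) (m : ℝ → ℕ) (z : ℂ) (r : ℝ) (hr : 0 ≤ r)
    (h : ∀ u ∈ U, r ≤ ‖z - u‖) : r ^ (∑ u ∈ U, m u) ≤ ‖pm U m z‖ := by
  rw [pm, norm_prod, ← Finset.prod_pow_eq_pow_sum]
  refine Finset.prod_le_prod (fun _ _ => by positivity) fun u hu => ?_
  rw [norm_pow]
  exact pow_le_pow_left₀ hr (h u hu) _

theorem norm_pm_le (U : Finset ℝ) (m : ℝ → ℕ) (z : ℂ) (r : ℝ)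
    (h : ∀ u ∈ U, ‖z - u‖ ≤ r) : ‖pm U m z‖ ≤ r ^ (∑ u ∈ U, m u) := by
  rw [pm, norm_prod, ← Finset.prod_pow_eq_pow_sum]
  refine Finset.prod_le_prod (fun _ _ => by positivity) fun u hu => ?_
  rw [norm_pow]
  exact pow_le_pow_left₀ (norm_nonneg _) (h u hu) _

theorem norm_pm_neg (U : Finset ℝ) (m : ℝ → ℕ) (x y : ℝ) :
    ‖pm U m ((x : ℂ) + y * I)‖ = ‖pm U m ((x : ℂ) + (-y : ℝ) * I)‖ := by
  rw [pm, pm, norm_prod, norm_prod]
  refine Finset.prod_congr rfl fun u _ => ?_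
  rw [norm_pow, norm_pow]
  congr 1
  rw [← sq_eq_sq₀ (norm_nonneg _) (norm_nonneg _), Lower.norm_sq_vert, Lower.norm_sq_vert]
  ring

theorem logDeriv_pm (U : Finset ℝ) (m : ℝ → ℕ) (w : ℂ) (hw : w.im < 0) :
    pm U m w ≠ 0 ∧ logDeriv (pm U m) w = rs U m w := by
  have hne : ∀ u : ℝ, w - (u : ℂ) ≠ 0 := fun u h => by
    have := congrArg Complex.im h
    simp at this
    linarith
  refine ⟨Finset.prod_ne_zero_iff.2 fun u _ => pow_ne_zero _ (hne u), ?_⟩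
  have h1 := logDeriv_prod (s := U) (f := fun (u : ℝ) (z : ℂ) => (z - (u : ℂ)) ^ m u) (x := w)
    (fun u _ => pow_ne_zero _ (hne u)) (fun u _ => by fun_prop)
  have h2 : pm U m = fun z => ∏ u ∈ U, (z - (u : ℂ)) ^ m u := rfl
  rw [h2, h1, rs, rat]
  simp only [ofReal_zero, zero_add, ofReal_natCast]
  refine Finset.sum_congr rfl fun u _ => ?_
  rw [logDeriv_fun_pow (f := fun z : ℂ => z - (u : ℂ)) (by fun_prop), logDeriv_apply]
  simp [div_eq_mul_inv]

theorem ld_eq (U : Finset ℝ) (m : ℝ → ℕ) (h : ℂ → ℂ) (s : Set ℂ) (hs : IsOpen s)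
    (hd : DifferentiableOn ℂ h s) (hf : ∀ w ∈ s, zf w = pm U m w * exp (h w)) (w : ℂ)
    (hws : w ∈ s) (hw : w.im < 0) : ld w = rs U m w + deriv h w := by
  obtain ⟨h1, h2⟩ := logDeriv_pm U m w hw
  have h3 : DifferentiableAt ℂ h w := hd.differentiableAt (hs.mem_nhds hws)
  have h4 : zf =ᶠ[𝓝 w] fun z => pm U m z * exp (h z) :=
    Filter.eventually_of_mem (hs.mem_nhds hws) hf
  have h5 := logDeriv_mul (f := pm U m) (g := fun z => exp (h z)) w h1 (exp_ne_zero _)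
    (pm_diff U m w) h3.cexp
  have h6 : logDeriv (fun z => exp (h z)) w = deriv h w := by
    rw [logDeriv_apply, h3.hasDerivAt.cexp.deriv]
    field_simp
  rw [ld, h4.deriv_eq, hf w hws, ← h2, ← h6, ← h5, logDeriv_apply]

/-- The imaginary part of `h'` at the centre. -/
theorem phase_at : ∃ K : ℝ, 0 ≤ K ∧ ∀ (T t r D : ℝ) (U : Finset ℝ) (m : ℝ → ℕ) (h : ℂ → ℂ),
    3 ≤ T → T ≤ t → t ≤ 2 * T → 2 < r → DifferentiableOn ℂ h (ball (t : ℂ) r) →
    (∀ w ∈ ball (t : ℂ) r, zf w = pm U m w * exp (h w)) →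
    (∀ w ∈ closedBall (t : ℂ) 2, ‖deriv h w - deriv h t‖ ≤ D) →
    |(deriv h t).im + Real.log T / 2| ≤ K + D := by
  obtain ⟨C₀, hC₀, hR⟩ := zf_right
  obtain ⟨c, C₁, hc, hC₁, hL⟩ := zf_left
  refine ⟨|Real.log c| + |Real.log C₁| + |Real.log C₀|, by positivity, ?_⟩
  intro T x r D V m h hT hx1 hx2 hr2 hd hf hD
  have hT0 : 0 < T := by linarith
  have hsub : closedBall (x : ℂ) 2 ⊆ ball (x : ℂ) r := closedBall_subset_ball hr2
  have m1 := Lower.vert_mem x (3 / 2) (by rw [abs_of_pos] <;> norm_num)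
  have m2 := Lower.vert_mem x (-(3 / 2)) (by rw [abs_neg, abs_of_pos] <;> norm_num)
  have f1 := congrArg norm (hf _ (hsub m1))
  have f2 := congrArg norm (hf _ (hsub m2))
  rw [norm_mul, Complex.norm_exp] at f1 f2
  rw [norm_pm_neg] at f1
  obtain ⟨l1, l2⟩ := hL T hT x hx1 hx2
  obtain ⟨r0, r1, r2⟩ := hR ((x : ℂ) + (-(3 / 2) : ℝ) * I) (by simp; norm_num)
  have key := (convex_closedBall (x : ℂ) 2).norm_image_sub_le_of_norm_hasDerivWithin_le
    (f := fun z => h z - z * deriv h x) (f' := fun z => deriv h z - deriv h x) (C := D)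
    (fun z hz => by
      have := (hd.differentiableAt (isOpen_ball.mem_nhds (hsub hz))).hasDerivAt.sub
        ((hasDerivAt_id z).mul_const (deriv h x))
      simp only [one_mul, id] at this
      exact this.hasDerivWithinAt) hD m2 m1
  set P := ‖pm V m ((x : ℂ) + (-(3 / 2) : ℝ) * I)‖ with hP
  set A := h ((x : ℂ) + (3 / 2 : ℝ) * I) with hA
  set B := h ((x : ℂ) + (-(3 / 2) : ℝ) * I) with hB
  have hz : 0 < ‖zf ((x : ℂ) + (-(3 / 2) : ℝ) * I)‖ := norm_pos_iff.2 r0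
  have hP0 : 0 < P := by
    rw [f2] at hz
    exact (mul_pos_iff_of_pos_right (Real.exp_pos _)).1 hz
  have hr : 0 < T ^ (3 / 2 : ℝ) := Real.rpow_pos_of_pos hT0 _
  rw [f1] at l1 l2
  rw [norm_inv, f2] at r2
  rw [f2] at r1
  have a1 := Real.log_le_log (by positivity) l1
  have a2 := Real.log_le_log (by positivity) l2
  have a3 := Real.log_le_log (by positivity) r1
  have a4 := Real.log_le_log (by positivity) r2
  rw [Real.log_mul hc.ne' hr.ne', Real.log_mul hP0.ne' (Real.exp_pos _).ne', Real.log_exp,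
    Real.log_rpow hT0] at a1
  rw [Real.log_mul hC₁.ne' hr.ne', Real.log_mul hP0.ne' (Real.exp_pos _).ne', Real.log_exp,
    Real.log_rpow hT0] at a2
  rw [Real.log_mul hP0.ne' (Real.exp_pos _).ne', Real.log_exp] at a3
  rw [Real.log_inv, Real.log_mul hP0.ne' (Real.exp_pos _).ne', Real.log_exp] at a4
  have e : (x : ℂ) + (3 / 2 : ℝ) * I - ((x : ℂ) + (-(3 / 2) : ℝ) * I) = (3 : ℝ) * I := by
    push_cast; ring
  rw [e, norm_mul, Complex.norm_I, Complex.norm_real, Real.norm_eq_abs,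
    abs_of_pos (show (0 : ℝ) < 3 by norm_num)] at key
  have t2 := (Complex.abs_re_le_norm _).trans key
  have e2 : (A - ((x : ℂ) + (3 / 2 : ℝ) * I) * deriv h x -
      (B - ((x : ℂ) + (-(3 / 2) : ℝ) * I) * deriv h x)).re =
      A.re - B.re + 3 * (deriv h x).im := by
    simp
    ring
  rw [e2] at t2
  obtain ⟨t3, t4⟩ := abs_le.1 t2
  have b1 := le_abs_self (Real.log c)
  have b2 := neg_abs_le (Real.log c)
  have b3 := le_abs_self (Real.log C₁)
  have b4 := neg_abs_le (Real.log C₁)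
  have b5 := le_abs_self (Real.log C₀)
  have b6 := neg_abs_le (Real.log C₀)
  rw [abs_le]
  constructor <;> linarith

theorem fin_zeros (T : ℝ) : {u : ℝ | |u - 3 * T / 2| ≤ T / 8 ∧ zf u = 0}.Finite := by
  have h1 : IsCompact ((fun u : ℝ => (1 / 2 + I * u : ℂ)) ''
      Set.Icc (3 * T / 2 - T / 8) (3 * T / 2 + T / 8)) := isCompact_Icc.image (by fun_prop)
  refine (h1.inter_riemannZetaZeros_finite.image Complex.im).subset ?_
  rintro u ⟨h2, h4⟩
  rw [abs_le] at h2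
  exact ⟨1 / 2 + I * u, ⟨⟨u, ⟨by linarith [h2.1], by linarith [h2.2]⟩, rfl⟩, h4⟩, by simp⟩

/-- The factorization on the disc of radius `T / 8`, with the count. -/
theorem near : ∃ A : ℝ, 0 < A ∧ ∀ T : ℝ, 200 ≤ T → Loc T →
    ∃ (U : Finset ℝ) (m : ℝ → ℕ) (h : ℂ → ℂ),
      (∀ w : ℂ, |w.re - 3 * T / 2| ≤ T / 8 → (zf w = 0 ↔ ∃ u ∈ U, w = u)) ∧
      (∀ u ∈ U, |u - 3 * T / 2| ≤ T / 8) ∧ (∀ u ∈ U, 1 ≤ m u) ∧
      (∀ u ∈ U, 2 ≤ m u → deriv zf u = 0) ∧ ∑ u ∈ U, (m u : ℝ) ≤ A * T * Real.log T ∧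
      DifferentiableOn ℂ h (ball ((3 * T / 2 : ℝ) : ℂ) (T / 8)) ∧
      (∀ w ∈ ball ((3 * T / 2 : ℝ) : ℂ) (T / 8), zf w = pm U m w * exp (h w)) ∧
      ∀ w ∈ ball ((3 * T / 2 : ℝ) : ℂ) (T / 8),
        (h w - h (((3 * T / 2 : ℝ) : ℂ) - I)).re ≤ A * T * Real.log T := by
  obtain ⟨C₁, hC₁, hg₁⟩ := zf_growth
  obtain ⟨C₂, hC₂, hg₂⟩ := zf_right
  refine ⟨2 * (C₁ + C₂), by positivity, fun T hT hloc => ?_⟩
  have hT0 : 0 < T := by linarith
  have hL := Lower.log_pos' hT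
  set L := Real.log T with hLdef
  set c : ℂ := ((3 * T / 2 : ℝ) : ℂ) with hc
  set U := (fin_zeros T).toFinset with hU
  have hmem : ∀ u : ℝ, u ∈ U ↔ |u - 3 * T / 2| ≤ T / 8 ∧ zf u = 0 := fun u =>
    (fin_zeros T).mem_toFinset
  have hzeros : ∀ w : ℂ, |w.re - 3 * T / 2| ≤ T / 8 → (zf w = 0 ↔ ∃ u ∈ U, w = u) := by
    intro w hw
    refine ⟨fun h => ?_, ?_⟩
    · have h1 := abs_le.1 hw
      have h2 := hloc w (by linarith [h1.1]) (by linarith [h1.2]) h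
      have h4 : w = (w.re : ℂ) := Complex.ext (by simp) (by rw [ofReal_im, h2])
      exact ⟨w.re, (hmem _).2 ⟨hw, by rw [← h4]; exact h⟩, h4⟩
    · rintro ⟨u, hu, rfl⟩
      exact ((hmem u).1 hu).2
  have hΩ : IsOpen {w : ℂ | 0 < w.re} := isOpen_lt continuous_const continuous_re
  have hΩc : IsPreconnected {w : ℂ | 0 < w.re} := (convex_halfSpace_re_gt 0).isPreconnected
  have hVc : ∀ u ∈ U, ‖(u : ℂ) - c‖ ≤ T / 8 := by
    intro u hu
    rw [hc, ← ofReal_sub, norm_real, Real.norm_eq_abs]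
    exact ((hmem u).1 hu).1
  have hball : ∀ w : ℂ, ‖w - c‖ ≤ T / 2 → T ≤ w.re ∧ w.re ≤ 2 * T ∧ |w.im| ≤ T := by
    intro w hw
    have h1 := (abs_re_le_norm (w - c)).trans hw
    have h2 := (abs_im_le_norm (w - c)).trans hw
    simp only [hc, sub_re, ofReal_re, sub_im, ofReal_im, sub_zero] at h1 h2
    rw [abs_le] at h1
    exact ⟨by linarith [h1.1], by linarith [h1.2], by linarith⟩
  have hcb : closedBall c (T / 2) ⊆ {w : ℂ | 0 < w.re} := fun w hw =>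
    lt_of_lt_of_le hT0 (hball w (by simpa [dist_eq_norm] using hw)).1
  have hV0 : ∀ u ∈ U, (u : ℂ) ∈ {w : ℂ | 0 < w.re} := fun u hu =>
    lt_of_lt_of_le hT0 (hball u ((hVc u hu).trans (by linarith))).1
  set w₀ : ℂ := c - I with hw₀
  have hw₀c : ‖w₀ - c‖ = 1 := by simp [hw₀]
  have hw₀b : w₀ ∈ ball c (T / 8) := by
    rw [mem_ball, dist_eq_norm, hw₀c]; linarith
  obtain ⟨z1, -, z3⟩ := hg₂ w₀ (by simp [hw₀, hc]; norm_num)
  obtain ⟨m, g, hg, hfg, hgu⟩ := exists_quot _ hΩ hΩc zf zf_differentiableOn w₀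
    (hcb (ball_subset_closedBall (ball_subset_ball (by linarith) hw₀b))) z1 U hV0
  set k := ∑ u ∈ U, m u with hk
  set E := Real.exp (C₁ * T * L) with hE
  have hmax : ∀ w ∈ ball c (T / 8), ‖g w‖ ≤ E / (3 * T / 8) ^ k := by
    intro w hw
    refine norm_le_of_forall_mem_frontier_norm_le (U := ball c (T / 2)) isBounded_ball
      (hg.diffContOnCl_ball hcb) (fun z hz => ?_)
      (subset_closure (ball_subset_ball (by linarith) hw))
    rw [frontier_ball c (by positivity), mem_sphere, dist_eq_norm] at hz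
    have hb := hball z hz.le
    have h1 := hg₁ T (by linarith) z hb.1 hb.2.1 hb.2.2
    have h2 : (3 * T / 8) ^ k ≤ ‖pm U m z‖ := by
      refine le_norm_pm U m z _ (by positivity) fun u hu => ?_
      have h3 : ‖z - c‖ ≤ ‖z - u‖ + ‖(u : ℂ) - c‖ := by
        calc ‖z - c‖ = ‖(z - u) + (u - c)‖ := by rw [sub_add_sub_cancel]
          _ ≤ _ := norm_add_le _ _
      linarith [hVc u hu]
    rw [hfg z, norm_mul] at h1
    rw [le_div_iff₀ (by positivity)]
    calc ‖g z‖ * (3 * T / 8) ^ k ≤ ‖g z‖ * ‖pm U m z‖ := by gcongr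
      _ ≤ _ := by rw [mul_comm]; exact h1
  have hlow : 1 ≤ C₂ * (3 * T / 16) ^ k * ‖g w₀‖ := by
    have h2 : ‖pm U m w₀‖ ≤ (3 * T / 16) ^ k := by
      refine norm_pm_le U m w₀ _ fun u hu => ?_
      have h3 : ‖w₀ - u‖ ≤ ‖w₀ - c‖ + ‖(u : ℂ) - c‖ := by
        calc ‖w₀ - u‖ = ‖(w₀ - c) - (u - c)‖ := by rw [sub_sub_sub_cancel_right]
          _ ≤ _ := norm_sub_le _ _
      linarith [hVc u hu]
    have h4 : ‖zf w₀‖ ≤ (3 * T / 16) ^ k * ‖g w₀‖ := by
      rw [hfg w₀, norm_mul]; gcongr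
    calc (1 : ℝ) = ‖(zf w₀)⁻¹‖ * ‖zf w₀‖ := by rw [← norm_mul, inv_mul_cancel₀ z1, norm_one]
      _ ≤ C₂ * ((3 * T / 16) ^ k * ‖g w₀‖) := by gcongr
      _ = _ := by ring
  have hpw : (3 * T / 8) ^ k = 2 ^ k * (3 * T / 16) ^ k := by
    rw [← mul_pow, show 2 * (3 * T / 16) = 3 * T / 8 by ring]
  have hrat : ∀ w ∈ ball c (T / 8), 2 ^ k * ‖g w‖ ≤ C₂ * E * ‖g w₀‖ := by
    intro w hw
    have h1 := hmax w hw
    rw [le_div_iff₀ (by positivity), hpw] at h1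
    calc 2 ^ k * ‖g w‖ ≤ 2 ^ k * ‖g w‖ * (C₂ * (3 * T / 16) ^ k * ‖g w₀‖) :=
          le_mul_of_one_le_right (by positivity) hlow
      _ = C₂ * (‖g w‖ * (2 ^ k * (3 * T / 16) ^ k)) * ‖g w₀‖ := by ring
      _ ≤ _ := by gcongr
  have hne : ∀ w ∈ ball c (T / 8), g w ≠ 0 := by
    intro w hw hgw
    rw [mem_ball, dist_eq_norm] at hw
    have h1 := (abs_re_le_norm (w - c)).trans hw.le
    simp only [hc, sub_re, ofReal_re] at h1
    obtain ⟨u, hu, rfl⟩ := (hzeros w h1).1 (by rw [hfg w, hgw, mul_zero])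
    exact hgu u hu hgw
  have hCE : C₂ * E ≤ Real.exp ((C₁ + C₂) * T * L) := by
    have h3 : C₂ ≤ Real.exp (C₂ * T * L) := by
      have h7 : 1 ≤ T * L := by nlinarith
      have h8 := Real.add_one_le_exp (C₂ * T * L)
      nlinarith
    rw [show (C₁ + C₂) * T * L = C₂ * T * L + C₁ * T * L by ring, Real.exp_add]
    gcongr
  have hpos : 0 ≤ (C₁ + C₂) * T * L := by positivity
  obtain ⟨h, hd, hgh⟩ := Factor.exists_log g c (T / 8)
    (hg.mono fun w hw => hcb (ball_subset_closedBall (ball_subset_ball (by linarith) hw))) hne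
  refine ⟨U, m, h, hzeros, fun u hu => ((hmem u).1 hu).1, fun u hu => ?_, fun u hu h2 => ?_, ?_,
    hd, fun w hw => by rw [hfg w, hgh w hw], fun w hw => ?_⟩
  · have h1 := ((hmem u).1 hu).2
    rw [hfg] at h1
    exact pos_of U m u ((mul_eq_zero.1 h1).resolve_right (hgu u hu))
  · exact deriv_zero U m zf g hfg u hu (hg.differentiableAt (hΩ.mem_nhds (hV0 u hu))) h2
  · have h1 := hrat w₀ hw₀b
    have h2 : 0 < ‖g w₀‖ := norm_pos_iff.2 (hne w₀ hw₀b)
    have h3 : (2 : ℝ) ^ k ≤ Real.exp ((C₁ + C₂) * T * L) :=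
      (le_of_mul_le_mul_right h1 h2).trans hCE
    have h4 := Real.log_le_log (by positivity) h3
    rw [Real.log_pow, Real.log_exp] at h4
    have h5 := Real.log_two_gt_d9
    have h6 : (0 : ℝ) ≤ k := Nat.cast_nonneg _
    rw [← Nat.cast_sum, ← hk]
    nlinarith
  · have h1 := hrat w hw
    rw [hgh w hw, hgh w₀ hw₀b, norm_exp, norm_exp] at h1
    have h2 : Real.exp ((h w - h w₀).re) ≤ Real.exp ((C₁ + C₂) * T * L) := by
      rw [sub_re, Real.exp_sub, div_le_iff₀ (Real.exp_pos _)]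
      calc Real.exp (h w).re ≤ 2 ^ k * Real.exp (h w).re :=
            le_mul_of_one_le_left (Real.exp_pos _).le (one_le_pow₀ (by norm_num))
        _ ≤ C₂ * E * Real.exp (h w₀).re := h1
        _ ≤ _ := by gcongr
    have h3 := Real.exp_le_exp.1 h2
    linarith

end PZM

open PZM in
theorem zm : ZmStmt := by
  obtain ⟨A, hA, H⟩ := near
  obtain ⟨K, hK, HK⟩ := phase_at
  set B := 115200 * A with hB
  have hB0 : 0 < B := by positivity
  refine ⟨1 + K + 2 * B, by linarith, ?_⟩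
  filter_upwards [eventually_ge_atTop (10000 : ℝ)] with T hT hloc
  obtain ⟨U, m, h, hz, hm, hp, hmu, hcard, hd, hf, hre⟩ := H T (by linarith) hloc
  have hT0 : 0 < T := by linarith
  have hL := Lower.log_pos' (T := T) (by linarith)
  set L := Real.log T with hLdef
  set c : ℂ := ((3 * T / 2 : ℝ) : ℂ) with hc
  have e8 : T / 2 / 4 = T / 8 := by ring
  obtain ⟨d1, d2⟩ := Factor.deriv_bounds h c (c - I) (T / 2) (A * T * L) (by linarith)
    (by positivity) (by simp) (by rw [e8]; exact hd) (by rw [e8]; exact hre)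
  have e1 : 720 * (A * T * L) / (T / 2) = 1440 * A * L := by
    field_simp
    ring
  have e2 : 720 * (A * T * L) / (T / 2) * 40 / (T / 2) = B * L / T := by
    rw [hB]
    field_simp
    ring
  rw [e2] at d2
  rw [e1] at d1
  have hBC : B ≤ 1 + K + 2 * B := by linarith
  have hsq : √T ≤ T / 100 := by
    have h1 : 100 ≤ √T := Real.le_sqrt_of_sq_le (by linarith)
    have h2 : √T * √T = T := Real.mul_self_sqrt hT0.le
    nlinarith
  refine ⟨U, m, hz, hm, hp, hmu, hcard.trans (by gcongr; linarith), fun t ht => ?_⟩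
  have hsub : ball (t : ℂ) (T / 80) ⊆ ball c (T / 2 / 8) := by
    intro w hw
    rw [mem_ball] at hw ⊢
    have h1 : dist (t : ℂ) c ≤ T / 20 := by
      rw [dist_eq_norm, hc, ← ofReal_sub, norm_real, Real.norm_eq_abs]
      exact ht
    linarith [dist_triangle w t c]
  have hsub' : ball (t : ℂ) (T / 80) ⊆ ball c (T / 8) :=
    hsub.trans (ball_subset_ball (by linarith))
  have htb : (t : ℂ) ∈ ball (t : ℂ) (T / 80) := mem_ball_self (by positivity)
  have ht' := abs_le.1 ht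
  refine ⟨deriv h t, ?_, ?_, fun w hw him => ?_⟩
  · refine (d1 t (ball_subset_ball (by linarith) (hsub htb))).trans ?_
    gcongr
    linarith
  · have hLT : L / T ≤ 1 := by
      rw [div_le_one hT0]
      linarith [Real.log_le_sub_one_of_pos hT0]
    have hs2 : 2 < T / 80 := by linarith
    have := HK T t (T / 80) (2 * B) U m h (by linarith) (by linarith [ht'.1])
      (by linarith [ht'.2]) hs2 (hd.mono hsub') (fun w hw => hf w (hsub' hw)) fun w hw => by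
        refine (d2 w (hsub (closedBall_subset_ball hs2 hw)) t (hsub htb)).trans ?_
        rw [mem_closedBall, dist_eq_norm] at hw
        calc B * L / T * ‖w - t‖ = B * (L / T) * ‖w - t‖ := by ring
          _ ≤ B * 1 * 2 := by gcongr
          _ = 2 * B := by ring
    linarith
  · have hwb : w ∈ ball (t : ℂ) (T / 80) := by
      rw [mem_ball, dist_eq_norm]
      linarith
    rw [ld_eq U m h _ isOpen_ball hd hf w (hsub' hwb) him, add_sub_cancel_left]
    refine (d2 w (hsub hwb) t (hsub htb)).trans ?_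
    gcongr

end Pool.Agent.MP_ca0a54_nt.H3
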