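import Pool.Agent.MP_ca0a54_nt.H24.Spec

/-! Elementary sums used in the row AR2. -/

open Complex Filter Topology Finset

namespace Pool.Agent.MP_ca0a54_nt.H3

open Pool.Agent.MP_ca0a54_nt.H24

/-- `n ^ (-s)` for real `s`. -/
noncomputable def ee (s : ℝ) (n : ℕ) : ℝ := Real.exp (-s * Real.log n)

theorem ee_pos (s : ℝ) (n : ℕ) : 0 < ee s n := Real.exp_pos _

theorem ee_add (s t : ℝ) (n : ℕ) : ee (s + t) n = ee s n * ee t n := by
  unfold ee; rw [← Real.exp_add]; congr 1; ring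

theorem ee_one {n : ℕ} (hn : n ≠ 0) : ee 1 n = 1 / n := by
  unfold ee
  have : (0 : ℝ) < n := by exact_mod_cast Nat.pos_of_ne_zero hn
  rw [neg_one_mul, Real.exp_neg, Real.exp_log this, one_div]

theorem ee_at_one (s : ℝ) : ee s 1 = 1 := by simp [ee]

theorem ee_mul (s : ℝ) {m n : ℕ} (hm : m ≠ 0) (hn : n ≠ 0) : ee s (m * n) = ee s m * ee s n := by
  unfold ee
  rw [← Real.exp_add, Nat.cast_mul, Real.log_mul (by exact_mod_cast hm) (by exact_mod_cast hn)]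
  congr 1; ring

theorem ee_le_one {s : ℝ} (hs : 0 ≤ s) (n : ℕ) : ee s n ≤ 1 := by
  unfold ee
  rw [Real.exp_le_one_iff]
  have := Real.log_natCast_nonneg n
  nlinarith

theorem tele_up {α : ℝ} (hα : 0 < α) {n : ℕ} (hn : n ≠ 0) :
    ee α n - ee α (n + 1) ≤ α * ee (1 + α) n := by
  have h0 : (0 : ℝ) < n := by exact_mod_cast Nat.pos_of_ne_zero hn
  have h1 : Real.log ((n + 1 : ℕ) : ℝ) - Real.log n ≤ 1 / n := by
    rw [← Real.log_div (by positivity) h0.ne']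
    have := Real.log_le_sub_one_of_pos (x := ((n + 1 : ℕ) : ℝ) / n) (by positivity)
    refine this.trans (le_of_eq ?_)
    push_cast; field_simp; ring
  have h2 : ee α (n + 1) = ee α n * Real.exp (-α * (Real.log ((n + 1 : ℕ) : ℝ) - Real.log n)) := by
    unfold ee; rw [← Real.exp_add]; congr 1; ring
  have h3 := Real.add_one_le_exp (-α * (Real.log ((n + 1 : ℕ) : ℝ) - Real.log n))
  have h4 : 1 - α * (1 / n) ≤ Real.exp (-α * (Real.log ((n + 1 : ℕ) : ℝ) - Real.log n)) := by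
    nlinarith
  rw [h2, ee_add, ee_one hn]
  have := ee_pos α n
  nlinarith

theorem tele_lo {α : ℝ} (hα : 0 < α) {n : ℕ} (hn : n ≠ 0) :
    α * ee (1 + α) (n + 1) ≤ ee α n - ee α (n + 1) := by
  have h0 : (0 : ℝ) < n := by exact_mod_cast Nat.pos_of_ne_zero hn
  have h1 : Real.log n - Real.log ((n + 1 : ℕ) : ℝ) ≤ -(1 / ((n + 1 : ℕ) : ℝ)) := by
    rw [← Real.log_div h0.ne' (by positivity)]
    have := Real.log_le_sub_one_of_pos (x := (n : ℝ) / ((n + 1 : ℕ) : ℝ)) (by positivity)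
    refine this.trans (le_of_eq ?_)
    push_cast; field_simp; ring
  have h2 : ee α n = ee α (n + 1) * Real.exp (-α * (Real.log n - Real.log ((n + 1 : ℕ) : ℝ))) := by
    unfold ee; rw [← Real.exp_add]; congr 1; ring
  have h3 := Real.add_one_le_exp (-α * (Real.log n - Real.log ((n + 1 : ℕ) : ℝ)))
  have h4 : 1 + α * (1 / ((n + 1 : ℕ) : ℝ)) ≤
      Real.exp (-α * (Real.log n - Real.log ((n + 1 : ℕ) : ℝ))) := by
    nlinarith
  rw [h2, ee_add, ee_one (Nat.succ_ne_zero n)]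
  have := ee_pos α (n + 1)
  nlinarith

theorem zup {α : ℝ} (hα : 0 < α) (M : ℕ) : ∑ n ∈ Icc 1 M, ee (1 + α) n ≤ 1 + 1 / α := by
  have key : ∀ M : ℕ, α * ∑ n ∈ Icc 1 (M + 1), ee (1 + α) n ≤ α + 1 - ee α (M + 1) := by
    intro M
    induction M with
    | zero => simp [ee_at_one]
    | succ M ih =>
      rw [Finset.sum_Icc_succ_top (by omega), mul_add]
      have := tele_lo hα (n := M + 1) (by omega)
      linarith
  rcases M with _ | M
  · simp; positivity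
  · have h1 := key M
    have h2 := ee_pos α (M + 1)
    have : 1 + 1 / α = (α + 1) / α := by field_simp
    rw [this, le_div_iff₀ hα]
    linarith

theorem zlow {α : ℝ} (hα : 0 < α) (M : ℕ) :
    1 - ee α (M + 1) ≤ α * ∑ n ∈ Icc 1 M, ee (1 + α) n := by
  induction M with
  | zero => simp [ee_at_one]
  | succ M ih =>
    rw [Finset.sum_Icc_succ_top (by omega), mul_add]
    have := tele_up hα (n := M + 1) (by omega)
    linarith

theorem zlim {β X Z : ℝ} (hβ : 0 < β) (hX : 0 ≤ X)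
    (h : ∀ M : ℕ, X * ∑ n ∈ Icc 1 M, ee (1 + β) n ≤ Z) : X ≤ β * Z := by
  have t1 : Tendsto (fun M : ℕ => ee β (M + 1)) atTop (𝓝 0) := by
    unfold ee
    refine Real.tendsto_exp_atBot.comp ?_
    refine Tendsto.const_mul_atTop_of_neg (by linarith) ?_
    exact Real.tendsto_log_atTop.comp
      (tendsto_natCast_atTop_atTop.comp (tendsto_add_atTop_nat 1))
  have t2 : Tendsto (fun M : ℕ => X * (1 - ee β (M + 1))) atTop (𝓝 (X * (1 - 0))) :=
    (tendsto_const_nhds.sub t1).const_mul X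
  rw [sub_zero, mul_one] at t2
  refine le_of_tendsto' t2 fun M => ?_
  have h1 := mul_le_mul_of_nonneg_left (zlow hβ M) hX
  have h2 := mul_le_mul_of_nonneg_left (h M) hβ.le
  linarith

theorem pairs (F : ℕ × ℕ → ℝ) (S : Finset ℕ) (M : ℕ) (hS : S ⊆ Icc 1 M) :
    ∑ n ∈ S, ∑ p ∈ n.divisorsAntidiagonal, F p =
      ∑ p ∈ (Icc 1 M ×ˢ Icc 1 M).filter (fun p => p.1 * p.2 ∈ S), F p := by
  rw [← Finset.sum_fiberwise_of_maps_to (s := (Icc 1 M ×ˢ Icc 1 M).filter (fun p => p.1 * p.2 ∈ S))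
    (t := S) (g := fun p => p.1 * p.2) (fun p hp => (mem_filter.1 hp).2)]
  refine Finset.sum_congr rfl fun n hn => Finset.sum_congr ?_ fun _ _ => rfl
  have hn' := mem_Icc.1 (hS hn)
  ext ⟨i, j⟩
  simp only [Nat.mem_divisorsAntidiagonal, mem_filter, mem_product, mem_Icc]
  constructor
  · rintro ⟨h1, h2⟩
    have hi : 0 < i := Nat.pos_of_ne_zero (by rintro rfl; simp at h1; omega)
    have hj : 0 < j := Nat.pos_of_ne_zero (by rintro rfl; simp at h1; omega)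
    have a1 : i ≤ i * j := Nat.le_mul_of_pos_right _ hj
    have a2 : j ≤ i * j := Nat.le_mul_of_pos_left _ hi
    refine ⟨⟨⟨⟨hi, by omega⟩, hj, by omega⟩, h1 ▸ hn⟩, h1⟩
  · rintro ⟨_, h⟩
    exact ⟨h, by omega⟩

/-- Upper bound for the sum of a convolution over a set. -/
theorem conv_le (f g : ℕ → ℝ) (S : Finset ℕ) (M : ℕ) (hS : S ⊆ Icc 1 M) (W : ℝ)
    (hf : ∀ k, 0 ≤ f k)
    (hW : ∀ k ∈ Icc 1 M, ∑ j ∈ (Icc 1 M).filter (fun j => k * j ∈ S), g j ≤ W) :
    ∑ n ∈ S, ∑ p ∈ n.divisorsAntidiagonal, f p.1 * g p.2 ≤ (∑ k ∈ Icc 1 M, f k) * W := by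
  rw [pairs _ S M hS, Finset.sum_filter, Finset.sum_product, Finset.sum_mul]
  refine Finset.sum_le_sum fun k hk => ?_
  refine le_trans (le_of_eq ?_) (mul_le_mul_of_nonneg_left (hW k hk) (hf k))
  rw [Finset.sum_filter, Finset.mul_sum]
  refine Finset.sum_congr rfl fun j _ => ?_
  split_ifs <;> simp

/-- Lower bound for the sum of a convolution. -/
theorem le_conv (f g : ℕ → ℝ) (K M : ℕ) (hf : ∀ k, 0 ≤ f k) (hg : ∀ k, 0 ≤ g k) :
    (∑ k ∈ Icc 1 K, f k) * ∑ j ∈ Icc 1 M, g j ≤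
      ∑ n ∈ Icc 1 (K * M), ∑ p ∈ n.divisorsAntidiagonal, f p.1 * g p.2 := by
  rw [pairs _ _ (K * M) (Finset.Subset.refl _), Finset.sum_mul_sum, ← Finset.sum_product']
  refine Finset.sum_le_sum_of_subset_of_nonneg ?_ fun p _ _ => mul_nonneg (hf _) (hg _)
  rintro ⟨i, j⟩ h
  simp only [mem_filter, mem_product, mem_Icc] at h ⊢
  obtain ⟨⟨h1, h2⟩, h3, h4⟩ := h
  have a1 : K ≤ K * M := Nat.le_mul_of_pos_right _ (by omega)
  have a2 : M ≤ K * M := Nat.le_mul_of_pos_left _ (by omega)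
  exact ⟨⟨⟨h1, by omega⟩, h3, by omega⟩, Nat.mul_pos h1 h3, Nat.mul_le_mul h2 h4⟩

theorem win_sub (M : ℕ) (x τ : ℝ) : win M x τ ⊆ Icc 1 M := Finset.filter_subset _ _

theorem mem_win {M N k j : ℕ} {x τ : ℝ} (hk : k ∈ Icc 1 M) (hj : 1 ≤ j) (hjN : j ≤ N)
    (h : k * j ∈ win M x τ) : j ∈ win N (x / k) τ := by
  unfold win at h ⊢
  simp only [mem_filter, mem_Icc] at h hk ⊢
  have hk0 : (0 : ℝ) < k := by exact_mod_cast hk.1
  obtain ⟨_, h1, h2⟩ := h
  push_cast at h1 h2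
  refine ⟨⟨hj, hjN⟩, ?_, ?_⟩
  · rw [div_lt_iff₀ hk0]; linarith
  · rw [div_mul_eq_mul_div, le_div_iff₀ hk0]; linarith

theorem norm_np_I (a : ℝ) (n : ℕ) : ‖np (I * a) n‖ = 1 := by
  unfold np
  rw [Complex.norm_exp]
  generalize Real.log n = t
  simp

theorem np_real (y : ℝ) (n : ℕ) : np y n = (ee y n : ℝ) := by
  unfold np ee
  push_cast
  rfl

theorem term_real (f : ℕ → ℂ) (s : ℝ) (n : ℕ) :
    LSeries.term f s n = f n * ((if n = 0 then 0 else ee s n : ℝ) : ℂ) := by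
  rcases eq_or_ne n 0 with rfl | hn
  · simp
  · rw [LSeries.term_of_ne_zero hn, if_neg hn]
    have h0 : (0 : ℝ) < n := by exact_mod_cast Nat.pos_of_ne_zero hn
    have : (n : ℂ) ^ (s : ℂ) = ((Real.exp (s * Real.log n) : ℝ) : ℂ) := by
      rw [← Complex.ofReal_natCast, ← Complex.ofReal_cpow h0.le, Real.rpow_def_of_pos h0, mul_comm]
    rw [this, div_eq_mul_inv, ← Complex.ofReal_inv, ← Real.exp_neg]
    unfold ee
    rw [neg_mul]

theorem sum_ite (g : ℕ → ℝ) (s : ℝ) (M : ℕ) :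
    ∑ n ∈ range (M + 1), g n * (if n = 0 then 0 else ee s n) = ∑ n ∈ Icc 1 M, g n * ee s n := by
  induction M with
  | zero => simp
  | succ M ih =>
    rw [Finset.sum_range_succ, ih, Finset.sum_Icc_succ_top (by omega), if_neg (by omega)]

theorem zeta_real {α : ℝ} (hα : 0 < α) : ∃ A : ℝ, riemannZeta ((1 + α : ℝ) : ℂ) = A ∧
    A ≤ 1 + 1 / α ∧ ∀ M : ℕ, ∑ n ∈ Icc 1 M, ee (1 + α) n ≤ A := by
  have h := LSeriesHasSum_one (s := ((1 + α : ℝ) : ℂ)) (by simp [hα])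
  unfold LSeriesHasSum at h
  have e : LSeries.term 1 ((1 + α : ℝ) : ℂ) =
      fun n => (((1 : ℝ) * (if n = 0 then 0 else ee (1 + α) n) : ℝ) : ℂ) := by
    funext n; rw [term_real]; simp
  rw [e] at h
  have hre := Complex.hasSum_re h
  have him := Complex.hasSum_im h
  simp only [Complex.ofReal_re, Complex.ofReal_im] at hre him
  have nn : ∀ n : ℕ, 0 ≤ (1 : ℝ) * (if n = 0 then 0 else ee (1 + α) n) := by
    intro n; split_ifs
    · simp
    · exact mul_nonneg zero_le_one (ee_pos _ _).le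
  refine ⟨(riemannZeta ((1 + α : ℝ) : ℂ)).re, ?_, ?_, ?_⟩
  · apply Complex.ext
    · simp
    · rw [Complex.ofReal_im]; exact him.unique hasSum_zero
  · refine le_of_tendsto' ((tendsto_add_atTop_iff_nat 1).2 hre.tendsto_sum_nat) fun M => ?_
    rw [sum_ite (fun _ => 1)]
    simpa using zup hα M
  · intro M
    have := sum_le_hasSum (range (M + 1)) (fun n _ => nn n) hre
    rw [sum_ite (fun _ => 1)] at this
    simpa using this

end Pool.Agent.MP_ca0a54_nt.H3
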